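import Pool.Agent.R153.QSeries

set_option autoImplicit false

namespace Pool.Agent.Results.MP_acbfbf_co.CoefficientInequality

open PowerSeries Finset Pool.Agent.R153.QS

/-- The q-Pochhammer symbol `(a; r)_n`, the product of `1 - a r^k` over `0 ≤ k < n`. -/
noncomputable def poch (a r : PowerSeries ℚ) (n : ℕ) : PowerSeries ℚ :=
  ∏ k ∈ range n, (1 - a * r ^ k)

/-- The Gaussian binomial coefficient `[n, m]` in the variable `r`; it is `0` for `m > n`. -/
noncomputable def gauss (n m : ℕ) (r : PowerSeries ℚ) : PowerSeries ℚ :=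
  if m ≤ n then poch r r n * (poch r r m * poch r r (n - m))⁻¹ else 0

/-- The left-hand side for `L`, with `q = X`. -/
noncomputable def lhs (L : ℕ) : PowerSeries ℚ :=
  (poch X (X ^ 2) L)⁻¹ *
    ((1 - X ^ (2 * L - 2)) * (1 - X ^ 2)⁻¹ + X ^ 3 * gauss (L - 2) 2 (X ^ 2))

/-- The right-hand side for `L`, with `q = X`. -/
noncomputable def rhs (L : ℕ) : PowerSeries ℚ :=
  X * gauss (L - 2) 2 X * poch (-X ^ 3) X (L - 4)

theorem poch_odd (L : ℕ) : (poch X (X ^ 2) L)⁻¹ = odd L := by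
  have h : odd L * poch X (X ^ 2) L = 1 := by
    unfold odd poch
    rw [← Finset.prod_mul_distrib]
    apply Finset.prod_eq_one
    intro k _
    have := geo_mul (show 0 < 2 * k + 1 by omega)
    have e : (X : PowerSeries ℚ) * (X ^ 2) ^ k = X ^ (2 * k + 1) := by
      rw [← pow_mul, pow_succ]; ring
    rw [e]
    exact this
  have hc : PowerSeries.constantCoeff (poch X (X ^ 2) L) ≠ 0 := by
    intro h0
    have := congrArg PowerSeries.constantCoeff h
    rw [map_mul, h0, mul_zero, map_one] at this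
    exact zero_ne_one this
  rw [eq_comm, PowerSeries.eq_inv_iff_mul_eq_one hc]
  exact h

theorem poch_self (r : PowerSeries ℚ) (n : ℕ) :
    poch r r (n + 2) = poch r r n * ((1 - r ^ (n + 1)) * (1 - r ^ (n + 2))) := by
  unfold poch
  rw [Finset.prod_range_succ, Finset.prod_range_succ, ← pow_succ', ← pow_succ', mul_assoc]

theorem poch_cc (d n : ℕ) (hd : 0 < d) :
    PowerSeries.constantCoeff (poch (X ^ d) (X ^ d) n) ≠ 0 := by
  unfold poch
  rw [map_prod, Finset.prod_ne_zero_iff]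
  intro k _
  rw [← pow_succ', ← pow_mul]
  exact cc_one_sub (by positivity)

theorem gauss_mul (d n : ℕ) (hd : 0 < d) :
    gauss (n + 2) 2 (X ^ d) * ((1 - X ^ d) * (1 - X ^ (2 * d))) =
      (1 - X ^ (d * (n + 1))) * (1 - X ^ (d * (n + 2))) := by
  unfold gauss
  rw [if_pos (by omega), Nat.add_sub_cancel, poch_self]
  have h2 : poch (X ^ d) (X ^ d) 2 = (1 - (X : PowerSeries ℚ) ^ d) * (1 - X ^ (2 * d)) := by
    unfold poch
    rw [Finset.prod_range_succ, Finset.prod_range_succ, Finset.prod_range_zero]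
    ring
  have hc2 := poch_cc d 2 hd
  have hcn := poch_cc d n hd
  have hc : PowerSeries.constantCoeff (poch (X ^ d) (X ^ d) 2 * poch (X ^ d) (X ^ d) n) ≠ 0 := by
    rw [map_mul]
    exact mul_ne_zero hc2 hcn
  rw [← h2, ← pow_mul, ← pow_mul]
  have hinv := PowerSeries.inv_mul_cancel _ hc
  calc poch (X ^ d) (X ^ d) n * ((1 - X ^ (d * (n + 1))) * (1 - X ^ (d * (n + 2)))) *
        (poch (X ^ d) (X ^ d) 2 * poch (X ^ d) (X ^ d) n)⁻¹ * poch (X ^ d) (X ^ d) 2
      = ((1 - X ^ (d * (n + 1))) * (1 - X ^ (d * (n + 2)))) *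
        ((poch (X ^ d) (X ^ d) 2 * poch (X ^ d) (X ^ d) n)⁻¹ *
          (poch (X ^ d) (X ^ d) 2 * poch (X ^ d) (X ^ d) n)) := by ring
    _ = _ := by rw [hinv, mul_one]

theorem gauss_H (n : ℕ) : gauss (n + 2) 2 (X ^ 2) = H (n + 1) := by
  have h1 := gauss_mul 2 n (by norm_num)
  have h2 := H_mul' (n + 1)
  have e1 : 2 * (n + 1) = 2 * (n + 1) := rfl
  have e2 : 2 * (n + 1) + 2 = 2 * (n + 2) := by ring
  rw [e2] at h2
  rw [← h2] at h1
  have hne : ((1 - X ^ 2) * (1 - X ^ 4) : PowerSeries ℚ) ≠ 0 :=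
    mul_ne_zero (ne_zero_one_sub (by norm_num)) (ne_zero_one_sub (by norm_num))
  exact mul_right_cancel₀ hne h1

theorem poch_dist (n : ℕ) : poch (-X ^ 3) X n * ((1 + X) * (1 + X ^ 2)) = dq (n + 2) := by
  have h : dq (n + 2) = (∏ k ∈ range n, (1 + X ^ (k + 3))) * ((1 + X) * (1 + X ^ 2)) := by
    unfold dq
    rw [Finset.prod_range_succ', Finset.prod_range_succ']
    simp only [zero_add, pow_one]
    ring
  rw [h]
  congr 1
  unfold poch
  apply Finset.prod_congr rfl
  intro k _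
  rw [neg_mul, sub_neg_eq_add, ← pow_add, add_comm 3 k]

theorem rhs_eq (n : ℕ) : rhs (n + 4) = X * H (n + 1) * dq n := by
  unfold rhs
  have h1 := gauss_mul 1 n (by norm_num)
  have h2 := H_mul' (n + 1)
  have h3 := poch_dist n
  have h4 : dq (n + 2) = dq n * ((1 + X ^ (n + 1)) * (1 + X ^ (n + 2))) := by
    unfold dq
    rw [Finset.prod_range_succ, Finset.prod_range_succ, mul_assoc]
  simp only [pow_one, mul_one, one_mul] at h1
  have e0 : n + 4 - 2 = n + 2 := by omega
  have e0' : n + 4 - 4 = n := by omega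
  rw [e0, e0']
  have hne : ((1 - X ^ 2) * (1 - X ^ 4) : PowerSeries ℚ) ≠ 0 :=
    mul_ne_zero (ne_zero_one_sub (by norm_num)) (ne_zero_one_sub (by norm_num))
  apply mul_right_cancel₀ hne
  have e4 : ((1 - X ^ 2) * (1 - X ^ 4) : PowerSeries ℚ) =
      ((1 - X) * (1 - X ^ 2)) * ((1 + X) * (1 + X ^ 2)) := by ring
  calc X * gauss (n + 2) 2 X * poch (-X ^ 3) X n * ((1 - X ^ 2) * (1 - X ^ 4))
      = X * (gauss (n + 2) 2 X * ((1 - X) * (1 - X ^ 2))) *
          (poch (-X ^ 3) X n * ((1 + X) * (1 + X ^ 2))) := by rw [e4]; ring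
    _ = X * ((1 - X ^ (n + 1)) * (1 - X ^ (n + 2))) *
          (dq n * ((1 + X ^ (n + 1)) * (1 + X ^ (n + 2)))) := by
        have h1' : gauss (n + 2) 2 X * ((1 - X) * (1 - X ^ 2)) =
          (1 - X ^ (n + 1)) * (1 - X ^ (n + 2)) := h1
        rw [h1', h3, h4]
    _ = X * ((1 - X ^ (2 * (n + 1))) * (1 - X ^ (2 * (n + 1) + 2))) * dq n := by
        have e5 : (X : PowerSeries ℚ) ^ (2 * (n + 1)) = X ^ (n + 1) * X ^ (n + 1) := by
          rw [← pow_add]; congr 1; ring
        have e6 : (X : PowerSeries ℚ) ^ (2 * (n + 1) + 2) = X ^ (n + 2) * X ^ (n + 2) := by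
          rw [← pow_add]; congr 1; ring
        rw [e5, e6]
        ring
    _ = _ := by rw [← h2]; ring

theorem lhs_eq (n : ℕ) : lhs (n + 4) = odd (n + 4) * (S (n + 1) + X ^ 3 * H (n + 1)) := by
  unfold lhs
  have e0 : n + 4 - 2 = n + 2 := by omega
  rw [poch_odd, e0, gauss_H]
  congr 2
  have h1 := S_mul (n + 1)
  have e1 : 2 * (n + 1) + 4 = 2 * (n + 4) - 2 := by omega
  rw [e1] at h1
  rw [← h1, mul_assoc, PowerSeries.mul_inv_cancel _ (cc_one_sub (by norm_num)), mul_one]

/-- For every positive `L`, every coefficient of the right-hand side is at most the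
corresponding coefficient of the left-hand side. -/
theorem result (L : ℕ) (hL : 0 < L) (n : ℕ) :
    PowerSeries.coeff n (rhs L) ≤ PowerSeries.coeff n (lhs L) := by
  revert n
  rw [← nn_sub_iff]
  rcases Nat.lt_or_ge L 4 with h | h
  · have h0 : gauss (L - 2) 2 X = 0 := by
      unfold gauss
      rw [if_neg (by omega)]
    have h0' : gauss (L - 2) 2 (X ^ 2) = 0 := by
      unfold gauss
      rw [if_neg (by omega)]
    unfold lhs rhs
    rw [h0, h0', mul_zero, mul_zero, zero_mul, sub_zero, add_zero, poch_odd]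
    apply (odd_nn L).mul
    have h1 := telescope 0 2 (L - 1) 0 (Nat.zero_le _)
    rw [← Finset.range_eq_Ico] at h1
    have e1 : 0 + 2 * (L - 1) = 2 * L - 2 := by omega
    rw [e1] at h1
    simp only [mul_zero, add_zero, pow_zero] at h1
    rw [← h1, mul_assoc, PowerSeries.mul_inv_cancel _ (cc_one_sub (by norm_num)), mul_one]
    exact NN.sum (fun _ _ => NN.X_pow _)
  · obtain ⟨m, rfl⟩ : ∃ m, L = m + 4 := ⟨L - 4, by omega⟩
    rw [lhs_eq, rhs_eq]
    have := main (m + 1) (m + 4) (by omega)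
    simpa using this

end Pool.Agent.Results.MP_acbfbf_co.CoefficientInequality
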